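import Pool.Agent.MP_536a45_ag.Dim

namespace Pool.Agent.MP_536a45_ag

theorem filt_anti {k : Type} [Field k] {ρ : ℕ} {a b : ℤ} (h : a ≤ b) :
    filt k ρ b ≤ filt k ρ a := by
  refine AddSubgroup.closure_mono ?_
  rintro _ ⟨ι, f, A, D, i, h1, h2, h3, rfl⟩
  exact ⟨ι, f, A, D, i, h1, h2, by omega, rfl⟩

theorem filt_mul {k : Type} [Field k] {ρ : ℕ} {a b : ℤ} {x y : Mot k ρ} (hx : x ∈ filt k ρ a)
    (hy : y ∈ filt k ρ b) : x * y ∈ filt k ρ (a + b) := by
  induction hx using AddSubgroup.closure_induction with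
  | zero => rw [zero_mul]; exact zero_mem _
  | add x x' _ _ h h' => rw [add_mul]; exact add_mem h h'
  | neg x _ h => rw [neg_mul]; exact neg_mem h
  | mem x hx =>
    induction hy using AddSubgroup.closure_induction with
    | zero => rw [mul_zero]; exact zero_mem _
    | add y y' _ _ h h' => rw [mul_add]; exact add_mem h h'
    | neg y _ h => rw [mul_neg]; exact neg_mem h
    | mem y hy =>
      obtain ⟨ι, f, A, D, i, h1, h2, h3, rfl⟩ := hx
      obtain ⟨κ, f', B, E, j, g1, g2, g3, rfl⟩ := hy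
      refine AddSubgroup.subset_closure ⟨ι ⊕ κ, inferInstance, _, D + E, i + j, h1.prod g1,
        dim_prod_le h2 g2, by push_cast; linarith, ?_⟩
      rw [cls_prod h1 g1, map_mul, zpow_add, Units.val_mul]
      ring

theorem basisAux_gen {k : Type} [Field k] {ρ : ℕ} {ι : Type} [Finite ι] {A : Set (ι → k)}
    (hA : IsConstr A) (i : ℤ) :
    ∃ a, toMot k ρ (cls A) * (rootL k ρ ^ i : (Mot k ρ)ˣ) ∈ filt k ρ a := by
  have := Fintype.ofFinite ι
  exact ⟨-((ρ * Fintype.card ι : ℤ) + i), AddSubgroup.subset_closure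
    ⟨ι, inferInstance, A, Fintype.card ι, i, hA, dim_le_card A, by omega, rfl⟩⟩

theorem basisAux_zpow {k : Type} [Field k] {ρ : ℕ} (i : ℤ) :
    ∃ a, ((rootL k ρ ^ i : (Mot k ρ)ˣ) : Mot k ρ) ∈ filt k ρ a := by
  have := basisAux_gen (ρ := ρ) (isConstr_univ (k := k) (ι := Empty)) i
  rwa [cls_point, map_one, one_mul] at this

/-- The elements lying in some step of the filtration. -/
def basisAux_sub (k : Type) [Field k] (ρ : ℕ) : Subring (Mot k ρ) where
  carrier := {x | ∃ a, x ∈ filt k ρ a}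
  mul_mem' := fun ⟨a, ha⟩ ⟨b, hb⟩ => ⟨a + b, filt_mul ha hb⟩
  one_mem' := by simpa using basisAux_zpow (k := k) (ρ := ρ) 0
  add_mem' := fun ⟨a, ha⟩ ⟨b, hb⟩ =>
    ⟨min a b, add_mem (filt_anti (min_le_left _ _) ha) (filt_anti (min_le_right _ _) hb)⟩
  zero_mem' := ⟨0, zero_mem _⟩
  neg_mem' := fun ⟨a, ha⟩ => ⟨a, neg_mem ha⟩

theorem basisAux_toMot {k : Type} [Field k] {ρ : ℕ} (c : K0 k) :
    toMot k ρ c ∈ basisAux_sub k ρ := by
  obtain ⟨q, rfl⟩ : ∃ q, mkK0 k q = c := Ideal.Quotient.mk_surjective c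
  induction q using MvPolynomial.induction_on with
  | C a =>
    rw [eq_intCast, map_intCast, map_intCast]
    exact intCast_mem _ a
  | add p q hp hq => rw [map_add, map_add]; exact add_mem hp hq
  | mul_X p A hp =>
    rw [map_mul, map_mul]
    refine mul_mem hp ?_
    obtain ⟨ι, f, A, hA⟩ := A
    have := basisAux_gen (ρ := ρ) hA 0
    rw [zpow_zero, Units.val_one, mul_one, cls_eq hA] at this
    exact this

theorem exists_mem_filt {k : Type} [Field k] {ρ : ℕ} (x : Mot k ρ) : ∃ a, x ∈ filt k ρ a := by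
  let φ : AdjoinRoot (rootPoly k ρ) →+* Mot k ρ := algebraMap (AdjoinRoot (rootPoly k ρ))
    (Localization.Away (AdjoinRoot.root (rootPoly k ρ)))
  have hr : φ (AdjoinRoot.root (rootPoly k ρ)) = (rootL k ρ : (Mot k ρ)ˣ) := rfl
  have hL : ((rootL k ρ : (Mot k ρ)ˣ) : Mot k ρ) ∈ basisAux_sub k ρ := by
    have := basisAux_zpow (k := k) (ρ := ρ) 1
    rwa [zpow_one] at this
  have h1 : ∀ r, φ r ∈ basisAux_sub k ρ := by
    intro r
    induction r using AdjoinRoot.induction_on with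
    | ih p =>
      induction p using Polynomial.induction_on' with
      | add p q hp hq => rw [map_add, map_add]; exact add_mem hp hq
      | monomial n a =>
        rw [← Polynomial.C_mul_X_pow_eq_monomial, map_mul, map_pow, AdjoinRoot.mk_C,
          AdjoinRoot.mk_X, map_mul, map_pow, hr]
        exact mul_mem (basisAux_toMot a) (pow_mem hL n)
  obtain ⟨n, r, h⟩ := IsLocalization.Away.surj
    (S := Localization.Away (AdjoinRoot.root (rootPoly k ρ))) (AdjoinRoot.root (rootPoly k ρ)) x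
  have h' : x * ((rootL k ρ : (Mot k ρ)ˣ) : Mot k ρ) ^ n = φ r := h
  have e : x = φ r * (rootL k ρ ^ (-(n : ℤ)) : (Mot k ρ)ˣ) := by
    rw [← h', mul_assoc, ← Units.val_pow_eq_pow_val, ← Units.val_mul, zpow_neg, zpow_natCast,
      mul_inv_cancel, Units.val_one, mul_one]
  rw [e]
  exact (basisAux_sub k ρ).mul_mem (h1 r) (basisAux_zpow _)

/-- The dimension filtration is a basis of neighbourhoods of `0` for a ring topology. -/
theorem filt_basis (k : Type) [Field k] (ρ : ℕ) : RingSubgroupsBasis (filt k ρ) := by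
  refine RingSubgroupsBasis.of_comm _ (fun i j => ⟨max i j,
    le_inf (filt_anti (le_max_left _ _)) (filt_anti (le_max_right _ _))⟩)
    (fun i => ⟨|i|, ?_⟩) fun x i => ?_
  · rintro _ ⟨x, hx, y, hy, rfl⟩
    exact filt_anti (by linarith [le_abs_self i, abs_nonneg i]) (filt_mul hx hy)
  · obtain ⟨a, ha⟩ := exists_mem_filt x
    refine ⟨i - a, fun y hy => ?_⟩
    have := filt_mul ha hy
    rwa [add_sub_cancel] at this

end Pool.Agent.MP_536a45_ag
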