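import Pool.Agent.MP_536a45_ag.Setup

/-!
# Basic calculus of constructible sets and their classes
-/

open MvPolynomial

namespace Pool.Agent.MP_536a45_ag

variable {k : Type} [Field k] {ι κ : Type}

theorem isConstr_hyp (p : MvPolynomial ι k) : IsConstr {x : ι → k | eval x p = 0} :=
  BooleanSubalgebra.subset_closure ⟨p, rfl⟩

theorem isConstr_empty : IsConstr (∅ : Set (ι → k)) := BooleanSubalgebra.bot_mem

theorem isConstr_univ : IsConstr (Set.univ : Set (ι → k)) := BooleanSubalgebra.top_mem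

theorem IsConstr.compl {A : Set (ι → k)} (h : IsConstr A) : IsConstr Aᶜ :=
  BooleanSubalgebra.compl_mem h

theorem IsConstr.union {A B : Set (ι → k)} (h : IsConstr A) (h' : IsConstr B) :
    IsConstr (A ∪ B) := BooleanSubalgebra.sup_mem h h'

theorem IsConstr.inter {A B : Set (ι → k)} (h : IsConstr A) (h' : IsConstr B) :
    IsConstr (A ∩ B) := BooleanSubalgebra.inf_mem h h'

theorem IsConstr.diff {A B : Set (ι → k)} (h : IsConstr A) (h' : IsConstr B) :
    IsConstr (A \ B) := BooleanSubalgebra.sdiff_mem h h'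

theorem isConstr_ne (p : MvPolynomial ι k) : IsConstr {x : ι → k | eval x p ≠ 0} :=
  (isConstr_hyp p).compl

theorem isConstr_biUnion {α : Type*} {s : Set α} (hs : s.Finite) {A : α → Set (ι → k)}
    (h : ∀ a ∈ s, IsConstr (A a)) : IsConstr (⋃ a ∈ s, A a) := by
  induction s, hs using Set.Finite.induction_on with
  | empty => simpa using isConstr_empty
  | insert _ _ ih =>
    rw [Set.biUnion_insert]
    exact (h _ (Set.mem_insert _ _)).union (ih fun a ha => h a (Set.mem_insert_of_mem _ ha))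

theorem isConstr_biInter {α : Type*} {s : Set α} (hs : s.Finite) {A : α → Set (ι → k)}
    (h : ∀ a ∈ s, IsConstr (A a)) : IsConstr (⋂ a ∈ s, A a) := by
  induction s, hs using Set.Finite.induction_on with
  | empty => simpa using isConstr_univ
  | insert _ _ ih =>
    rw [Set.biInter_insert]
    exact (h _ (Set.mem_insert _ _)).inter (ih fun a ha => h a (Set.mem_insert_of_mem _ ha))

theorem isConstr_iUnion {α : Type*} [Finite α] {A : α → Set (ι → k)}
    (h : ∀ a, IsConstr (A a)) : IsConstr (⋃ a, A a) := by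
  simpa using isConstr_biUnion (Set.finite_univ (α := α)) (A := A) fun a _ => h a

theorem isConstr_iInter {α : Type*} [Finite α] {A : α → Set (ι → k)}
    (h : ∀ a, IsConstr (A a)) : IsConstr (⋂ a, A a) := by
  simpa using isConstr_biInter (Set.finite_univ (α := α)) (A := A) fun a _ => h a

/-- Induction principle for constructible sets. -/
theorem IsConstr.induction {P : Set (ι → k) → Prop}
    (hyp : ∀ p : MvPolynomial ι k, P {x | eval x p = 0}) (empty : P ∅)
    (union : ∀ A B, IsConstr A → IsConstr B → P A → P B → P (A ∪ B))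
    (compl : ∀ A, IsConstr A → P A → P Aᶜ) {A : Set (ι → k)} (h : IsConstr A) : P A := by
  unfold IsConstr at h
  induction h using BooleanSubalgebra.closure_bot_sup_induction with
  | mem x hx => obtain ⟨p, rfl⟩ := hx; exact hyp p
  | bot => exact empty
  | sup x hx y hy ihx ihy => exact union x y hx hy ihx ihy
  | compl x hx ih => exact compl x hx ih

theorem eval_polyMap (F : κ → MvPolynomial ι k) (x : ι → k) (p : MvPolynomial κ k) :
    eval (polyMap F x) p = eval x (aeval F p) := by
  induction p using MvPolynomial.induction_on with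
  | C a => simp
  | add p q hp hq => simp [hp, hq]
  | mul_X p i hp => simp only [map_mul, hp, eval_X, aeval_X]; rfl

theorem IsConstr.preimage (F : κ → MvPolynomial ι k) {A : Set (κ → k)} (h : IsConstr A) :
    IsConstr (polyMap F ⁻¹' A) := by
  refine IsConstr.induction (P := fun A => IsConstr (polyMap F ⁻¹' A)) ?_ ?_ ?_ ?_ h
  · intro p
    have : polyMap F ⁻¹' {x | eval x p = 0} = {x | eval x (aeval F p) = 0} := by
      ext x; simp [eval_polyMap]
    rw [this]; exact isConstr_hyp _
  · exact isConstr_empty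
  · intro A B _ _ hA hB; exact hA.union hB
  · intro A _ hA; exact hA.compl

theorem polyMap_X (e : κ → ι) (x : ι → k) : polyMap (fun j => X (e j)) x = x ∘ e := by
  funext j; simp [polyMap]

theorem IsConstr.comp (e : κ → ι) {A : Set (κ → k)} (h : IsConstr A) :
    IsConstr {x : ι → k | x ∘ e ∈ A} := by
  have := h.preimage (fun j => (X (e j) : MvPolynomial ι k))
  have e1 : polyMap (fun j => (X (e j) : MvPolynomial ι k)) ⁻¹' A = {x : ι → k | x ∘ e ∈ A} := by
    ext x; simp [polyMap_X]
  rwa [e1] at this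

theorem IsConstr.prod {A : Set (ι → k)} {B : Set (κ → k)} (hA : IsConstr A) (hB : IsConstr B) :
    IsConstr {x : ι ⊕ κ → k | x ∘ Sum.inl ∈ A ∧ x ∘ Sum.inr ∈ B} :=
  (hA.comp Sum.inl).inter (hB.comp Sum.inr)

/-- The common zero set of any family of polynomials is constructible (Hilbert's basis theorem). -/
theorem isConstr_zeros [Finite ι] {α : Type*} (p : α → MvPolynomial ι k) :
    IsConstr {x : ι → k | ∀ a, eval x (p a) = 0} := by
  obtain ⟨T, hT⟩ := (IsNoetherian.noetherian (Ideal.span (Set.range p)) : (Ideal.span _).FG)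
  have : {x : ι → k | ∀ a, eval x (p a) = 0} = ⋂ q ∈ (T : Set (MvPolynomial ι k)),
      {x | eval x q = 0} := by
    ext x
    simp only [Set.mem_ofPred_eq, Set.mem_iInter]
    constructor
    · intro h q hq
      have h1 : Ideal.span (Set.range p) ≤ RingHom.ker (eval x) := by
        rw [Ideal.span_le]; rintro _ ⟨a, rfl⟩; exact h a
      exact h1 (hT ▸ Ideal.subset_span hq)
    · intro h a
      have h1 : Ideal.span (T : Set (MvPolynomial ι k)) ≤ RingHom.ker (eval x) := by
        rw [Ideal.span_le]; intro q hq; exact h q hq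
      have h2 : p a ∈ Ideal.span (Set.range p) := Ideal.subset_span ⟨a, rfl⟩
      rw [← hT] at h2
      exact h1 h2
  rw [this]
  exact isConstr_biInter T.finite_toSet fun q _ => isConstr_hyp q

theorem cls_eq [fin : Finite ι] {A : Set (ι → k)} (h : IsConstr A) :
    cls A = mkK0 k (X ⟨ι, fin, A, h⟩) := by
  simp [cls, h]

theorem mk_eq_of_rel {a b : MvPolynomial (Constr k) ℤ} (h : Rel k (a - b)) :
    mkK0 k a = mkK0 k b :=
  Ideal.Quotient.eq.2 (Ideal.subset_span h)

theorem cls_iso [Finite ι] [Finite κ] {A : Set (ι → k)} {B : Set (κ → k)} (hA : IsConstr A)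
    (hB : IsConstr B) (φ : (ι → k) → (κ → k)) (ψ : (κ → k) → (ι → k)) (hφ : IsRegularOn A φ)
    (hψ : IsRegularOn B ψ) (hAB : Set.MapsTo φ A B) (hBA : Set.MapsTo ψ B A)
    (hinv : Set.InvOn ψ φ A B) : cls A = cls B := by
  rw [cls_eq hA, cls_eq hB]
  exact mk_eq_of_rel (Rel.iso ⟨ι, _, A, hA⟩ ⟨κ, _, B, hB⟩ φ ψ hφ hψ hAB hBA hinv)

theorem cls_union [Finite ι] {A B : Set (ι → k)} (hA : IsConstr A) (hB : IsConstr B)
    (hd : Disjoint A B) : cls (A ∪ B) = cls A + cls B := by
  rw [cls_eq hA, cls_eq hB, cls_eq (hA.union hB), ← map_add]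
  refine mk_eq_of_rel ?_
  rw [← sub_sub]
  exact Rel.add ι _ A B hA hB (hA.union hB) hd

theorem cls_empty [Finite ι] : cls (∅ : Set (ι → k)) = 0 := by
  have := cls_union (isConstr_empty (k := k) (ι := ι)) isConstr_empty (by simp)
  simpa using this

theorem cls_prod [Finite ι] [Finite κ] {A : Set (ι → k)} {B : Set (κ → k)} (hA : IsConstr A)
    (hB : IsConstr B) :
    cls {x : ι ⊕ κ → k | x ∘ Sum.inl ∈ A ∧ x ∘ Sum.inr ∈ B} = cls A * cls B := by
  rw [cls_eq hA, cls_eq hB, cls_eq (hA.prod hB), ← map_mul]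
  exact mk_eq_of_rel (Rel.mul ⟨ι, _, A, hA⟩ ⟨κ, _, B, hB⟩ _ (hA.prod hB))

theorem cls_point : cls (Set.univ : Set (Empty → k)) = 1 := by
  rw [cls_eq isConstr_univ, ← map_one (mkK0 k)]
  exact mk_eq_of_rel (Rel.one _ _)

theorem isRegularOn_polyMap (A : Set (ι → k)) (F : κ → MvPolynomial ι k) :
    IsRegularOn A (polyMap F) :=
  ⟨F, fun _ => 1, fun x _ j => by simp [polyMap]⟩

theorem isRegularOn_comp (A : Set (ι → k)) (e : κ → ι) :
    IsRegularOn A (fun x : ι → k => x ∘ e) :=
  ⟨fun j => X (e j), fun _ => 1, fun x _ j => by simp⟩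

theorem cls_equiv [Finite ι] [Finite κ] (e : κ ≃ ι) {A : Set (κ → k)} (hA : IsConstr A) :
    cls {x : ι → k | x ∘ e ∈ A} = cls A := by
  refine cls_iso (hA.comp e) hA (fun x => x ∘ e) (fun y => y ∘ e.symm) (isRegularOn_comp _ _)
    (isRegularOn_comp _ _) (fun x hx => hx) (fun y hy => ?_) ⟨fun x _ => ?_, fun y _ => ?_⟩
  · simpa [Function.comp_assoc] using hy
  · simp [Function.comp_assoc]
  · simp [Function.comp_assoc]

theorem cls_univ_fin (n : ℕ) :
    cls (Set.univ : Set (Fin n → k)) = cls (Set.univ : Set (Unit → k)) ^ n := by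
  induction n with
  | zero =>
    rw [pow_zero, ← cls_point, ← cls_equiv (Equiv.equivEmpty (Fin 0)).symm isConstr_univ]
    rfl
  | succ n ih =>
    rw [pow_succ, ← ih, ← cls_prod isConstr_univ isConstr_univ]
    have e : Fin n ⊕ Unit ≃ Fin (n + 1) := Fintype.equivFinOfCardEq (by simp)
    rw [← cls_equiv e.symm isConstr_univ]
    simp

theorem cls_univ [Fintype ι] :
    cls (Set.univ : Set (ι → k)) = cls (Set.univ : Set (Unit → k)) ^ Fintype.card ι := by
  rw [← cls_univ_fin, ← cls_equiv (Fintype.equivFin ι).symm isConstr_univ]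
  rfl

theorem cls_biUnion [Finite ι] {α : Type*} (s : Finset α) {A : α → Set (ι → k)}
    (h : ∀ a ∈ s, IsConstr (A a)) (hd : (s : Set α).PairwiseDisjoint A) :
    cls (⋃ a ∈ s, A a) = ∑ a ∈ s, cls (A a) := by
  classical
  induction s using Finset.induction_on with
  | empty => simpa using cls_empty
  | insert a s ha ih =>
    have h1 : IsConstr (⋃ a ∈ s, A a) :=
      isConstr_biUnion s.finite_toSet fun b hb => h b (by simp [show b ∈ s from hb])
    rw [Finset.set_biUnion_insert, Finset.sum_insert ha, cls_union (h a (by simp)) h1,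
      ih (fun b hb => h b (by simp [hb])) (hd.subset (by simp))]
    simp only [Set.disjoint_iUnion_right]
    intro b hb
    exact hd (by simp) (by simp [hb]) (fun e => ha (e ▸ hb))

theorem rootL_val (ρ : ℕ) : ((rootL k ρ : (Mot k ρ)ˣ) : Mot k ρ) =
    algebraMap (AdjoinRoot (rootPoly k ρ))
      (Localization.Away (AdjoinRoot.root (rootPoly k ρ))) (AdjoinRoot.root (rootPoly k ρ)) := rfl

theorem rootL_pow (ρ : ℕ) : ((rootL k ρ : (Mot k ρ)ˣ) : Mot k ρ) ^ ρ = lef k ρ := by
  have h : AdjoinRoot.root (rootPoly k ρ) ^ ρ =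
      AdjoinRoot.of (rootPoly k ρ) (cls (Set.univ : Set (Unit → k))) := by
    have h : Polynomial.eval₂ (AdjoinRoot.of (rootPoly k ρ)) (AdjoinRoot.root (rootPoly k ρ))
        (Polynomial.X ^ ρ - Polynomial.C (cls (Set.univ : Set (Unit → k)))) = 0 :=
      AdjoinRoot.eval₂_root (rootPoly k ρ)
    rwa [Polynomial.eval₂_sub, Polynomial.eval₂_X_pow, Polynomial.eval₂_C, sub_eq_zero] at h
  exact (map_pow (algebraMap (AdjoinRoot (rootPoly k ρ))
      (Localization.Away (AdjoinRoot.root (rootPoly k ρ)))) _ ρ).symm.trans (congrArg _ h)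

end Pool.Agent.MP_536a45_ag
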