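import Pool.Agent.MP_536a45_ag.Cls

open MvPolynomial

namespace Pool.Agent.MP_536a45_ag

variable {k : Type} [Field k] {ι κ : Type}

theorem dimAux_le_of_integral {R S : Type} [CommRing R] [CommRing S] (f : R →+* S)
    (hf : f.IsIntegral) : ringKrullDim S ≤ ringKrullDim R := by
  algebraize [f]
  exact Order.krullDim_le_of_strictMono (PrimeSpectrum.comap (algebraMap R S))
    fun _ _ h => Ideal.IsIntegral.comap_lt_comap h

theorem dimAux_ge_of_integral {R S : Type} [CommRing R] [CommRing S] (f : R →+* S)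
    (hf : f.IsIntegral) (hi : Function.Injective f) : ringKrullDim R ≤ ringKrullDim S := by
  algebraize [f]
  refine iSup_le fun l => ?_
  obtain ⟨Q, -, hQ, hQ'⟩ := Ideal.exists_ideal_over_prime_of_isIntegral (S := S) l.head.asIdeal ⊥
    ((Ideal.comap_bot_of_injective f hi).le.trans bot_le)
  have : Q.LiesOver l.head.asIdeal := ⟨hQ'.symm⟩
  obtain ⟨L, hL, -⟩ := Ideal.exists_ltSeries_of_hasGoingUp l Q
  rw [← hL]
  exact Order.LTSeries.length_le_krullDim L

theorem dimAux_poly (σ : Type) [Fintype σ] :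
    ringKrullDim (MvPolynomial σ k) = (Fintype.card σ : ℕ) := by
  rw [MvPolynomial.ringKrullDim_of_isNoetherianRing, ringKrullDim_eq_zero_of_field, zero_add,
    Nat.card_eq_fintype_card]

theorem dimAux_dep {R : Type} [CommRing R] [Algebra k R] {s D : ℕ} (hs : s ≤ D)
    (g : MvPolynomial (Fin s) k →ₐ[k] R) (hg : g.IsIntegral)
    (φ : MvPolynomial (Fin (D + 1)) k →ₐ[k] R) : ¬ Function.Injective φ := by
  intro hφ
  obtain ⟨P, hP, hP'⟩ := Ideal.exists_comap_eq_of_mem_minimalPrimes_of_injective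
    (f := φ.toRingHom) hφ ⊥ (by rw [IsDomain.minimalPrimes_eq_singleton_bot]; rfl)
  let π := Ideal.Quotient.mkₐ k P
  have h1 : AlgebraicIndependent k fun j => π (φ (X j)) := by
    rw [algebraicIndependent_iff]
    intro p hp
    have e : aeval (fun j => π (φ (X j))) = π.comp φ := by
      ext j; simp
    rw [e] at hp
    have : p ∈ P.comap φ.toRingHom := (Ideal.Quotient.eq_zero_iff_mem (a := φ p)).1 hp
    rwa [hP', Ideal.mem_bot] at this
  let x : Fin s → R ⧸ P := fun i => π (g (X i))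
  have e : aeval x = π.comp g := by
    ext j; simp [x]
  have h2 : Algebra.IsIntegral (Algebra.adjoin k (Set.range x)) (R ⧸ P) := by
    refine ⟨fun r => ?_⟩
    obtain ⟨r, rfl⟩ := Ideal.Quotient.mk_surjective r
    obtain ⟨q, hq, hq'⟩ := hg r
    have hm : ∀ a, (π.comp g) a ∈ Algebra.adjoin k (Set.range x) := fun a => by
      rw [Algebra.adjoin_range_eq_range_aeval, e]
      exact ⟨a, rfl⟩
    let g' := ((π.comp g).codRestrict _ hm).toRingHom
    refine ⟨q.map g', hq.map _, ?_⟩
    rw [Polynomial.eval₂_map]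
    have := Polynomial.hom_eval₂ q g.toRingHom π.toRingHom r
    rw [show Polynomial.eval₂ g.toRingHom r q = 0 from hq', map_zero] at this
    exact this.symm
  have h3 := h1.cardinalMk_le_trdeg.trans
    ((Algebra.IsAlgebraic.trdeg_le_cardinalMk k (Set.range x)).trans Cardinal.mk_range_le)
  simp only [Cardinal.mk_fintype, Fintype.card_fin, Nat.cast_le] at h3
  omega

theorem dimAux_mem {A : Set (ι → k)} {p : MvPolynomial ι k} :
    p ∈ vanishingIdeal k A ↔ ∀ x ∈ A, eval x p = 0 := by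
  simp [mem_vanishingIdeal_iff, aeval_eq_eval]

theorem dimAux_empty : dim (∅ : Set (ι → k)) = ⊥ := by
  have : Subsingleton (MvPolynomial ι k ⧸ vanishingIdeal k (∅ : Set (ι → k))) := by
    rw [vanishingIdeal_empty]
    infer_instance
  exact ringKrullDim_eq_bot_of_subsingleton

theorem dimAux_noether [Finite ι] {A : Set (ι → k)} (hA : A.Nonempty) :
    ∃ (s : ℕ) (g : MvPolynomial (Fin s) k →ₐ[k] (MvPolynomial ι k ⧸ vanishingIdeal k A)),
      Function.Injective g ∧ g.IsIntegral ∧ dim A = s := by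
  have : Nontrivial (MvPolynomial ι k ⧸ vanishingIdeal k A) := by
    refine Ideal.Quotient.nontrivial_iff.2 fun h => ?_
    obtain ⟨x, hx⟩ := hA
    have : (1 : MvPolynomial ι k) ∈ vanishingIdeal k A := h ▸ Submodule.mem_top
    simpa using dimAux_mem.1 this x hx
  obtain ⟨s, g, h1, h2⟩ :=
    exists_integral_inj_algHom_of_fg k (MvPolynomial ι k ⧸ vanishingIdeal k A)
  refine ⟨s, g, h1, h2, ?_⟩
  have e := dimAux_poly (k := k) (Fin s)
  rw [Fintype.card_fin] at e
  rw [← e]
  exact le_antisymm (dimAux_le_of_integral g.toRingHom h2)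
    (dimAux_ge_of_integral g.toRingHom h2 h1)

theorem dim_mono {A B : Set (ι → k)} (h : A ⊆ B) : dim A ≤ dim B :=
  ringKrullDim_le_of_surjective (Ideal.Quotient.factor (vanishingIdeal_anti_mono h))
    (Ideal.Quotient.factor_surjective _)

theorem dim_le_iff [Finite ι] (A : Set (ι → k)) (D : ℕ) :
    dim A ≤ D ↔ ∀ y : Fin (D + 1) → MvPolynomial ι k, ∃ p : MvPolynomial (Fin (D + 1)) k,
      p ≠ 0 ∧ ∀ x ∈ A, eval x (aeval y p) = 0 := by
  rcases A.eq_empty_or_nonempty with rfl | hA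
  · rw [dimAux_empty]
    exact iff_of_true bot_le fun _ => ⟨1, one_ne_zero, fun _ h => h.elim⟩
  obtain ⟨s, g, h1, h2, h3⟩ := dimAux_noether hA
  rw [h3, Nat.cast_le]
  constructor
  · intro hs y
    have := dimAux_dep hs g h2 ((Ideal.Quotient.mkₐ k _).comp (aeval y))
    rw [injective_iff_map_eq_zero] at this
    push Not at this
    obtain ⟨p, hp, hp'⟩ := this
    exact ⟨p, hp', dimAux_mem.1 (Ideal.Quotient.eq_zero_iff_mem.1 hp)⟩
  · intro h
    by_contra hs
    have hs' : D + 1 ≤ s := by omega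
    choose y hy using fun i : Fin (D + 1) =>
      Ideal.Quotient.mk_surjective (g (X (Fin.castLE hs' i)))
    obtain ⟨p, hp, hp'⟩ := h y
    have e : (Ideal.Quotient.mkₐ k (vanishingIdeal k A)).comp (aeval y) =
        g.comp (rename (Fin.castLE hs')) := by
      ext j; simp [hy]
    have e' : g (rename (Fin.castLE hs') p) = 0 := by
      rw [← AlgHom.comp_apply, ← e]
      exact Ideal.Quotient.eq_zero_iff_mem.2 (dimAux_mem.2 hp')
    exact hp (rename_injective _ (Fin.castLE_injective hs')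
      (by rw [map_zero]; exact h1 (by rw [e', map_zero])))

theorem dim_biUnion_le [Finite ι] {α : Type*} (s : Finset α) (A : α → Set (ι → k)) (D : ℕ)
    (h : ∀ a ∈ s, dim (A a) ≤ D) : dim (⋃ a ∈ s, A a) ≤ D := by
  rw [dim_le_iff]
  intro y
  choose! p hp hp' using fun a ha => (dim_le_iff _ D).1 (h a ha) y
  refine ⟨∏ a ∈ s, p a, Finset.prod_ne_zero_iff.2 hp, fun x hx => ?_⟩
  obtain ⟨a, ha, hx⟩ := Set.mem_iUnion₂.1 hx
  rw [map_prod, map_prod]
  exact Finset.prod_eq_zero ha (hp' a ha x hx)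

theorem dim_le_card [Fintype ι] (A : Set (ι → k)) : dim A ≤ (Fintype.card ι : ℕ) := by
  rw [← dimAux_poly (k := k) ι]
  exact ringKrullDim_quotient_le _

theorem exists_normalization [Finite ι] {A : Set (ι → k)} {D : ℕ} (h : dim A ≤ D) :
    ∃ y : Fin D → MvPolynomial ι k, ∀ i, ∃ p : Polynomial (MvPolynomial (Fin D) k),
      p.Monic ∧ ∀ x ∈ A, Polynomial.eval₂ (eval (polyMap y x)) (x i) p = 0 := by
  rcases A.eq_empty_or_nonempty with rfl | hA
  · exact ⟨0, fun _ => ⟨1, Polynomial.monic_one, fun _ h => h.elim⟩⟩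
  obtain ⟨s, g, -, h2, h3⟩ := dimAux_noether hA
  rw [h3, Nat.cast_le] at h
  choose y hy using fun i : Fin s => Ideal.Quotient.mk_surjective (g (X i))
  refine ⟨fun j => if hj : (j : ℕ) < s then y ⟨j, hj⟩ else 0, fun i => ?_⟩
  obtain ⟨q, hq, hq'⟩ := h2 (Ideal.Quotient.mk _ (X i))
  refine ⟨q.map (rename (Fin.castLE h)).toRingHom, hq.map _, fun x hx => ?_⟩
  let ev : (MvPolynomial ι k ⧸ vanishingIdeal k A) →ₐ[k] k :=
    Ideal.Quotient.liftₐ _ (aeval x) fun p hp => hp x hx
  have e : (eval (polyMap (fun j : Fin D => if hj : (j : ℕ) < s then y ⟨j, hj⟩ else 0) x)).comp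
      (rename (Fin.castLE h)).toRingHom = ev.toRingHom.comp g.toRingHom := by
    ext j
    · simp
    · simp [polyMap, ← hy, ev, aeval_eq_eval]
  have := Polynomial.hom_eval₂ q g.toRingHom ev.toRingHom (Ideal.Quotient.mk _ (X i))
  rw [show Polynomial.eval₂ g.toRingHom _ q = 0 from hq', map_zero] at this
  rw [Polynomial.eval₂_map, e, this]
  congr 1
  simp [ev]

theorem dimAux_le_of_normalization {σ : Type} [Fintype σ] {A : Set (ι → k)}
    (y : σ → MvPolynomial ι k) (h : ∀ i, ∃ p : Polynomial (MvPolynomial σ k),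
      p.Monic ∧ ∀ x ∈ A, Polynomial.eval₂ (eval (polyMap y x)) (x i) p = 0) :
    dim A ≤ (Fintype.card σ : ℕ) := by
  rw [← dimAux_poly (k := k) σ]
  let π := Ideal.Quotient.mk (vanishingIdeal k A)
  refine dimAux_le_of_integral (π.comp (aeval y).toRingHom) fun r => ?_
  obtain ⟨q, rfl⟩ := Ideal.Quotient.mk_surjective r
  induction q using MvPolynomial.induction_on with
  | C a =>
    have := RingHom.isIntegralElem_map (π.comp (aeval y).toRingHom) (x := C a)
    simpa [π] using this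
  | add p q hp hq => rw [map_add]; exact RingHom.IsIntegralElem.add _ hp hq
  | mul_X p i hp =>
    rw [map_mul]
    refine RingHom.IsIntegralElem.mul _ hp ?_
    obtain ⟨q, hq, hq'⟩ := h i
    refine ⟨q, hq, ?_⟩
    rw [← Polynomial.hom_eval₂]
    refine Ideal.Quotient.eq_zero_iff_mem.2 (dimAux_mem.2 fun x hx => ?_)
    rw [Polynomial.hom_eval₂, eval_X, ← hq' x hx]
    congr 1
    ext j <;> simp [polyMap]

theorem dim_prod_le [Finite ι] [Finite κ] {A : Set (ι → k)} {B : Set (κ → k)} {D E : ℕ}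
    (hA : dim A ≤ D) (hB : dim B ≤ E) :
    dim {x : ι ⊕ κ → k | x ∘ Sum.inl ∈ A ∧ x ∘ Sum.inr ∈ B} ≤ (D + E : ℕ) := by
  obtain ⟨y, hy⟩ := exists_normalization hA
  obtain ⟨z, hz⟩ := exists_normalization hB
  have := dimAux_le_of_normalization
    (A := {x : ι ⊕ κ → k | x ∘ Sum.inl ∈ A ∧ x ∘ Sum.inr ∈ B}) (σ := Fin D ⊕ Fin E)
    (Sum.elim (fun j => rename Sum.inl (y j)) fun j => rename Sum.inr (z j)) (by
      rintro (i | i)
      · obtain ⟨p, hp, hp'⟩ := hy i
        refine ⟨p.map (rename Sum.inl).toRingHom, hp.map _, fun x hx => ?_⟩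
        rw [Polynomial.eval₂_map, ← hp' _ hx.1]
        congr 1
        ext j <;> simp [polyMap, eval_rename]
      · obtain ⟨p, hp, hp'⟩ := hz i
        refine ⟨p.map (rename Sum.inr).toRingHom, hp.map _, fun x hx => ?_⟩
        rw [Polynomial.eval₂_map, ← hp' _ hx.2]
        congr 1
        ext j <;> simp [polyMap, eval_rename])
  simpa using this

theorem dim_image_le [Fintype ι] [Finite κ] (F : κ → MvPolynomial ι k) (Z : Finset ι) :
    dim (polyMap F '' {x | ∀ i ∈ Z, x i = 0}) ≤ (Fintype.card ι - Z.card : ℕ) := by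
  classical
  rw [dim_le_iff]
  intro y
  have hc : Fintype.card {i // i ∉ Z} = Fintype.card ι - Z.card := by
    rw [Fintype.card_subtype_compl, Fintype.card_coe]
  have h := dim_le_card (Set.univ : Set ({i // i ∉ Z} → k))
  rw [hc, dim_le_iff] at h
  let u : ι → MvPolynomial {i // i ∉ Z} k := fun i => if hi : i ∈ Z then 0 else X ⟨i, hi⟩
  obtain ⟨p, hp, hp'⟩ := h fun j => aeval u (aeval F (y j))
  refine ⟨p, hp, ?_⟩
  rintro _ ⟨x, hx, rfl⟩
  have e : polyMap u (fun i : {i // i ∉ Z} => x i) = x := by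
    funext i
    by_cases hi : i ∈ Z
    · simp [polyMap, u, hi, hx i hi]
    · simp [polyMap, u, hi]
  have h1 := hp' (fun i => x i) trivial
  rw [← eval_polyMap] at h1 ⊢
  rw [← h1]
  congr 2
  funext j
  simp only [polyMap]
  rw [← eval_polyMap, e, ← eval_polyMap]

end Pool.Agent.MP_536a45_ag
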