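import Pool.Agent.MP_536a45_ag.Final

open Pool.Agent.MP_536a45_ag

/-- There are an algebraically closed field `k` and a finite group `G ≤ GL(σ, k)` without
pseudo-reflections such that `X = 𝔸^σ / G` has a free canonical module (so `r = 1`) and,
for every `ρ ≥ 1` (in particular `ρ = |G|`), the stringy motive of `X` converges in the completed
Grothendieck ring with `𝕃^{1/ρ}` adjoined but is not a rational function in `𝕃^{1/ρ}`. -/
theorem Pool.Agent.MP_536a45_ag.disproof_all_roots :
    ∃ (k : Type) (_ : Field k) (_ : IsAlgClosed k) (σ : Type) (_ : Fintype σ)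
      (_ : DecidableEq σ) (G : Subgroup (GL σ k)), Nonempty σ ∧ Finite G ∧ NoPseudoReflection G ∧
      IrrationalStringyMotive k (invariants G) (Fintype.card σ) := by
  obtain ⟨A, hA, hnr⟩ := exists_data
  exact main_gen (by norm_num) A hA fun _ _ hf _ hρ => main_integral hA hnr hf hρ
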