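import Mathlib

/-!
# The Grothendieck ring of `k`-varieties, with `𝕃^{1/ρ}` and its inverse adjoined

The ring `K₀(Var_k)` is presented by constructible subsets of affine spaces: the class is additive
on disjoint unions, multiplicative on products, and equal for sets that are isomorphic through
regular maps in both directions.
-/

open MvPolynomial

namespace Pool.Agent.MP_536a45_ag

/-- A subset of the affine space `k^ι` is constructible if it is a finite Boolean combination of
hypersurfaces `{p = 0}`. -/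
def IsConstr {k : Type} [Field k] {ι : Type} (A : Set (ι → k)) : Prop :=
  A ∈ BooleanSubalgebra.closure
    {Z : Set (ι → k) | ∃ p : MvPolynomial ι k, Z = {x | eval x p = 0}}

/-- A map `φ : k^ι → k^κ` is regular on `A` if its coordinates are fractions `P / Q` of
polynomials whose denominators do not vanish on `A`. -/
def IsRegularOn {k : Type} [Field k] {ι κ : Type} (A : Set (ι → k))
    (φ : (ι → k) → (κ → k)) : Prop :=
  ∃ P Q : κ → MvPolynomial ι k, ∀ x ∈ A, ∀ j,
    eval x (Q j) ≠ 0 ∧ φ x j = eval x (P j) / eval x (Q j)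

/-- The dimension of a subset of affine space: the Krull dimension of the coordinate ring of its
Zariski closure (`⊥` for the empty set). -/
noncomputable def dim {k : Type} [Field k] {ι : Type} (A : Set (ι → k)) : WithBot ℕ∞ :=
  ringKrullDim (MvPolynomial ι k ⧸ vanishingIdeal k A)

/-- A constructible subset of a finite-dimensional affine space over `k`. -/
structure Constr (k : Type) [Field k] : Type 1 where
  /-- the coordinates of the ambient affine space -/
  ι : Type
  /-- there are finitely many coordinates -/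
  fin : Finite ι
  /-- the set of points -/
  carrier : Set (ι → k)
  /-- the set is constructible -/
  constr : IsConstr carrier

/-- The relations of the Grothendieck ring of varieties. -/
inductive Rel (k : Type) [Field k] : MvPolynomial (Constr k) ℤ → Prop
  /-- `[A] = [B]` if `A ≅ B` through mutually inverse regular maps -/
  | iso (A B : Constr k) (φ : (A.ι → k) → (B.ι → k)) (ψ : (B.ι → k) → (A.ι → k))
      (hφ : IsRegularOn A.carrier φ) (hψ : IsRegularOn B.carrier ψ)
      (hAB : Set.MapsTo φ A.carrier B.carrier) (hBA : Set.MapsTo ψ B.carrier A.carrier)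
      (hinv : Set.InvOn ψ φ A.carrier B.carrier) : Rel k (X A - X B)
  /-- `[A ⊔ B] = [A] + [B]` -/
  | add (ι : Type) (fin : Finite ι) (A B : Set (ι → k)) (hA : IsConstr A) (hB : IsConstr B)
      (hAB : IsConstr (A ∪ B)) (hd : Disjoint A B) :
      Rel k (X ⟨ι, fin, A ∪ B, hAB⟩ - X ⟨ι, fin, A, hA⟩ - X ⟨ι, fin, B, hB⟩)
  /-- `[A × B] = [A] [B]` -/
  | mul (A B : Constr k) (fin : Finite (A.ι ⊕ B.ι))
      (h : IsConstr {x : A.ι ⊕ B.ι → k | x ∘ Sum.inl ∈ A.carrier ∧ x ∘ Sum.inr ∈ B.carrier}) :
      Rel k (X ⟨A.ι ⊕ B.ι, fin, _, h⟩ - X A * X B)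
  /-- `[point] = 1` -/
  | one (fin : Finite Empty) (h : IsConstr (Set.univ : Set (Empty → k))) :
      Rel k (X ⟨Empty, fin, _, h⟩ - 1)

/-- The Grothendieck ring `K₀(Var_k)` of `k`-varieties. -/
def K0 (k : Type) [Field k] : Type 1 :=
  MvPolynomial (Constr k) ℤ ⧸ Ideal.span {r | Rel k r}

noncomputable instance (k : Type) [Field k] : CommRing (K0 k) :=
  Ideal.Quotient.commRing (Ideal.span {r | Rel k r})

/-- The quotient map onto `K₀(Var_k)`. -/
noncomputable def mkK0 (k : Type) [Field k] : MvPolynomial (Constr k) ℤ →+* K0 k :=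
  Ideal.Quotient.mk (Ideal.span {r | Rel k r})

open Classical in
/-- The class `{A} ∈ K₀(Var_k)` of a constructible set `A` (and `0` if `A` is not constructible). -/
noncomputable def cls {k : Type} [Field k] {ι : Type} [fin : Finite ι] (A : Set (ι → k)) : K0 k :=
  if h : IsConstr A then mkK0 k (X ⟨ι, fin, A, h⟩) else 0

/-- The polynomial `T ^ ρ - 𝕃` over `K₀(Var_k)`, where `𝕃 = {𝔸¹}`. -/
noncomputable def rootPoly (k : Type) [Field k] (ρ : ℕ) : Polynomial (K0 k) :=
  Polynomial.X ^ ρ - Polynomial.C (cls (Set.univ : Set (Unit → k)))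

/-- The ring `𝓜 = K₀(Var_k)[𝕃^{1/ρ}, 𝕃^{-1/ρ}]`. -/
def Mot (k : Type) [Field k] (ρ : ℕ) : Type 1 :=
  Localization.Away (AdjoinRoot.root (rootPoly k ρ))

noncomputable instance (k : Type) [Field k] (ρ : ℕ) : CommRing (Mot k ρ) :=
  (OreLocalization.instCommRing : CommRing (Localization.Away (AdjoinRoot.root (rootPoly k ρ))))

/-- The map `R → R[1/x]`. -/
noncomputable def awayMap {R : Type 1} [CommRing R] (x : R) : R →+* Localization.Away x :=
  algebraMap R (Localization.Away x)

/-- The element `x` as a unit of `R[1/x]`. -/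
noncomputable def awayUnit {R : Type 1} [CommRing R] (x : R) : (Localization.Away x)ˣ :=
  (IsLocalization.Away.algebraMap_isUnit (S := Localization.Away x) x).unit

/-- The canonical map `K₀(Var_k) → 𝓜`. -/
noncomputable def toMot (k : Type) [Field k] (ρ : ℕ) : K0 k →+* Mot k ρ :=
  (awayMap (AdjoinRoot.root (rootPoly k ρ))).comp (AdjoinRoot.of (rootPoly k ρ))

/-- The unit `𝕃^{1/ρ}` of `𝓜`. -/
noncomputable def rootL (k : Type) [Field k] (ρ : ℕ) : (Mot k ρ)ˣ :=
  awayUnit (AdjoinRoot.root (rootPoly k ρ))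

/-- The Lefschetz class `𝕃 = {𝔸¹}` in `𝓜`. -/
noncomputable def lef (k : Type) [Field k] (ρ : ℕ) : Mot k ρ :=
  toMot k ρ (cls (Set.univ : Set (Unit → k)))

/-- The dimension filtration: `filt k ρ m` is the subgroup generated by the elements
`{A} 𝕃^{i/ρ}` with `dim A + i/ρ ≤ -m/ρ`. -/
noncomputable def filt (k : Type) [Field k] (ρ : ℕ) (m : ℤ) : AddSubgroup (Mot k ρ) :=
  AddSubgroup.closure {x | ∃ (ι : Type) (_ : Finite ι) (A : Set (ι → k)) (D : ℕ) (i : ℤ),
    IsConstr A ∧ dim A ≤ D ∧ (ρ * D : ℤ) + i ≤ -m ∧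
      x = toMot k ρ (cls A) * (rootL k ρ ^ i : (Mot k ρ)ˣ)}

end Pool.Agent.MP_536a45_ag
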