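import Pool.Agent.MP_536a45_ag.Setup

open MvPolynomial

namespace Pool.Agent.MP_536a45_ag

section Abstract

/-- The differential of an element of the algebra generated by `f` lies in the span of the
differentials of the `f j`. -/
theorem omega_D_mem_span {k S ι : Type} [Field k] [CommRing S] [Algebra k S] (f : ι → S) {p : S}
    (hp : p ∈ Algebra.adjoin k (Set.range f)) :
    KaehlerDifferential.D k S p ∈
      Submodule.span S (Set.range fun j => KaehlerDifferential.D k S (f j)) := by
  induction hp using Algebra.adjoin_induction with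
  | mem x hx =>
    obtain ⟨j, rfl⟩ := hx
    exact Submodule.subset_span ⟨j, rfl⟩
  | algebraMap r => simp
  | add x y _ _ hx hy => rw [map_add]; exact Submodule.add_mem _ hx hy
  | mul x y _ _ hx hy =>
    rw [Derivation.leibniz]
    exact Submodule.add_mem _ (Submodule.smul_mem _ _ hy) (Submodule.smul_mem _ _ hx)

theorem omega_span_top {k S ι : Type} [Field k] [CommRing S] [Algebra k S] (f : ι → S)
    (hf : Algebra.adjoin k (Set.range f) = ⊤) :
    Submodule.span S (Set.range fun j => KaehlerDifferential.D k S (f j)) = ⊤ := by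
  rw [eq_top_iff, ← KaehlerDifferential.span_range_derivation, Submodule.span_le]
  rintro _ ⟨p, rfl⟩
  exact omega_D_mem_span f (by rw [hf]; trivial)

/-- If a family of `d` vectors spans up to torsion, top forms are proportional up to torsion. -/
theorem omega_rank {S T : Type} [CommRing S] [IsDomain S] [AddCommGroup T] [Module S T] {d : ℕ}
    (v : Fin d → T) (hv : ∀ x : T, ∃ c : S, c ≠ 0 ∧ c • x ∈ Submodule.span S (Set.range v))
    (η : ⋀[S]^d T) :
    ∃ c : S, c ≠ 0 ∧ ∃ s : S, ∀ φ : Module.Dual S (⋀[S]^d T),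
      c * φ η = s * φ (exteriorPower.ιMulti S d v) := by
  have hη : η ∈ Submodule.span S (Set.range (exteriorPower.ιMulti S d (M := T))) := by
    rw [exteriorPower.ιMulti_span]; trivial
  induction hη using Submodule.span_induction with
  | mem x hx =>
    obtain ⟨w, rfl⟩ := hx
    choose c hc0 hc using hv
    have hA : ∀ i, ∃ a : Fin d → S, ∑ j, a j • v j = c (w i) • w i := fun i =>
      (Submodule.mem_span_range_iff_exists_fun S).1 (hc (w i))
    choose A hA using hA
    refine ⟨∏ i, c (w i), Finset.prod_ne_zero_iff.2 fun i _ => hc0 _,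
      (Pi.basisFun S (Fin d)).det A, fun φ => ?_⟩
    let g : T [⋀^Fin d]→ₗ[S] S := φ.compAlternatingMap (exteriorPower.ιMulti S d)
    let g' := g.compLinearMap (Fintype.linearCombination S v)
    have h1 := DFunLike.congr_fun (g'.eq_smul_basis_det (Pi.basisFun S (Fin d))) A
    have h2 : g' (Pi.basisFun S (Fin d)) = φ (exteriorPower.ιMulti S d v) := by
      show g _ = g v
      congr 1
      funext i
      simp [Fintype.linearCombination_apply, Pi.single_apply]
    have h3 : g' A = (∏ i, c (w i)) * φ (exteriorPower.ιMulti S d w) := by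
      have h4 : g' A = g fun i => c (w i) • w i := by
        show g _ = _
        congr 1
        funext i
        rw [← hA i, Fintype.linearCombination_apply]
      rw [h4, g.map_smul_univ]
      rfl
    rw [← h3, h1, h2, AlternatingMap.smul_apply, smul_eq_mul, mul_comm]
  | zero => exact ⟨1, one_ne_zero, 0, fun φ => by simp⟩
  | add x y _ _ hx hy =>
    obtain ⟨c, hc, s, hs⟩ := hx
    obtain ⟨c', hc', s', hs'⟩ := hy
    refine ⟨c * c', mul_ne_zero hc hc', c' * s + c * s', fun φ => ?_⟩
    rw [map_add]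
    linear_combination c' * hs φ + c * hs' φ
  | smul a x _ hx =>
    obtain ⟨c, hc, s, hs⟩ := hx
    refine ⟨c, hc, a * s, fun φ => ?_⟩
    rw [map_smul, smul_eq_mul]
    linear_combination a * hs φ

/-- If the dual of `T` is generated by one nonzero form, the double dual is free of rank one and
the image of `T` is the range of this form. -/
theorem omega_dual {S T : Type} [CommRing S] [IsDomain S] [AddCommGroup T] [Module S T]
    (ψ : Module.Dual S T) (hψ : ψ ≠ 0) (hgen : ∀ φ : Module.Dual S T, ∃ c : S, φ = c • ψ) :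
    Nonempty (Module.Dual S (Module.Dual S T) ≃ₗ[S] S) ∧
      ∀ e : Module.Dual S (Module.Dual S T) ≃ₗ[S] S,
        LinearMap.range (e.toLinearMap ∘ₗ Module.Dual.eval S T) = LinearMap.range ψ := by
  obtain ⟨η0, hη0⟩ : ∃ η, ψ η ≠ 0 := by
    by_contra hne
    push Not at hne
    exact hψ (LinearMap.ext hne)
  have hb : Function.Bijective (LinearMap.toSpanSingleton S (Module.Dual S T) ψ) := by
    constructor
    · rw [injective_iff_map_eq_zero]
      intro c hc
      have := DFunLike.congr_fun hc η0
      simpa [hη0] using this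
    · intro φ
      obtain ⟨c, rfl⟩ := hgen φ
      exact ⟨c, rfl⟩
  let L := LinearEquiv.ofBijective _ hb
  let Λ0 : Module.Dual S (Module.Dual S T) := L.symm.toLinearMap
  have hΛ0 : Λ0 ψ = 1 := by
    show L.symm ψ = 1
    rw [LinearEquiv.symm_apply_eq]
    show ψ = (1 : S) • ψ
    rw [one_smul]
  have hΛ : ∀ Λ : Module.Dual S (Module.Dual S T), Λ = Λ ψ • Λ0 := by
    intro Λ
    refine LinearMap.ext fun φ => ?_
    obtain ⟨c, rfl⟩ := hgen φ
    simp [hΛ0, mul_comm]
  have hb' : Function.Bijective (Module.Dual.eval S (Module.Dual S T) ψ) := by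
    constructor
    · rw [injective_iff_map_eq_zero]
      intro Λ h0
      have h1 : Λ ψ = 0 := h0
      rw [hΛ Λ, h1, zero_smul]
    · intro c
      refine ⟨c • Λ0, ?_⟩
      show (c • Λ0) ψ = c
      simp [hΛ0]
  refine ⟨⟨LinearEquiv.ofBijective _ hb'⟩, fun e => ?_⟩
  have he : ∀ Λ, e Λ = Λ ψ * e Λ0 := fun Λ => by
    conv_lhs => rw [hΛ Λ]
    rw [map_smul, smul_eq_mul]
  have hu : e.symm 1 ψ * e Λ0 = 1 := by rw [← he, LinearEquiv.apply_symm_apply]
  apply le_antisymm
  · rintro _ ⟨η, rfl⟩
    refine ⟨e Λ0 • η, ?_⟩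
    show _ = e _
    rw [he (Module.Dual.eval S T η), map_smul, smul_eq_mul, mul_comm]
    rfl
  · rintro _ ⟨η, rfl⟩
    refine ⟨e.symm 1 ψ • η, ?_⟩
    show e _ = _
    rw [he]
    show ψ (e.symm 1 ψ • η) * _ = _
    rw [map_smul, smul_eq_mul]
    linear_combination ψ η * hu

theorem omega_torsion {k S ι : Type} [Field k] [CommRing S] [IsDomain S] [Algebra k S]
    (M : S) (hM0 : M ≠ 0) (h : ι → S) (hM : M ∈ Algebra.adjoin k (Set.range h))
    (chart : ∀ p : S, ∃ a : ℕ, M ^ a * p ∈ Algebra.adjoin k (Set.range h))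
    (x : KaehlerDifferential k S) :
    ∃ c : S, c ≠ 0 ∧
      c • x ∈ Submodule.span S (Set.range fun j => KaehlerDifferential.D k S (h j)) := by
  have hx : x ∈ Submodule.span S (Set.range (KaehlerDifferential.D k S)) := by
    rw [KaehlerDifferential.span_range_derivation]; trivial
  induction hx using Submodule.span_induction with
  | mem x hx =>
    obtain ⟨p, rfl⟩ := hx
    obtain ⟨a, ha⟩ := chart p
    refine ⟨M ^ a, pow_ne_zero _ hM0, ?_⟩
    have h1 := omega_D_mem_span h ha
    have h2 := omega_D_mem_span h (Subalgebra.pow_mem _ hM a)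
    rw [Derivation.leibniz] at h1
    exact (Submodule.add_mem_iff_left _ (Submodule.smul_mem _ _ h2)).1 h1
  | zero => exact ⟨1, one_ne_zero, by simp⟩
  | add x y _ _ hx hy =>
    obtain ⟨c, hc, hx⟩ := hx
    obtain ⟨c', hc', hy⟩ := hy
    refine ⟨c * c', mul_ne_zero hc hc', ?_⟩
    rw [smul_add]
    refine Submodule.add_mem _ ?_ ?_
    · rw [mul_comm, mul_smul]; exact Submodule.smul_mem _ _ hx
    · rw [mul_smul]; exact Submodule.smul_mem _ _ hy
  | smul a x _ hx =>
    obtain ⟨c, hc, hx⟩ := hx
    refine ⟨c, hc, ?_⟩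
    rw [smul_comm]
    exact Submodule.smul_mem _ _ hx

end Abstract

variable {k : Type} [Field k] {σ : Type} [Fintype σ] [DecidableEq σ]

/-- The gradient of a differential form of `S`. -/
noncomputable def omegaGrad (S : Subalgebra k (MvPolynomial σ k)) :
    KaehlerDifferential k S →ₗ[S] σ → MvPolynomial σ k :=
  LinearMap.pi fun m =>
    ((pderiv m : Derivation k (MvPolynomial σ k) (MvPolynomial σ k)).compAlgebraMap
      S).liftKaehlerDifferential

omit [Fintype σ] [DecidableEq σ] in
theorem omegaGrad_D (S : Subalgebra k (MvPolynomial σ k)) (a : S) (m : σ) :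
    omegaGrad S (KaehlerDifferential.D k S a) m = pderiv m (a : MvPolynomial σ k) := by
  simp only [omegaGrad, LinearMap.pi_apply, Derivation.liftKaehlerDifferential_comp_D]
  rfl

/-- The determinant as an alternating map over `S`. -/
noncomputable def omegaDet (S : Subalgebra k (MvPolynomial σ k)) :
    (σ → MvPolynomial σ k) [⋀^σ]→ₗ[S] MvPolynomial σ k :=
  { (Matrix.detRowAlternating (n := σ) (R := MvPolynomial σ k)).toMultilinearMap.restrictScalars S
      with
    map_eq_zero_of_eq' := fun v _ _ h hij =>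
      (Matrix.detRowAlternating (n := σ) (R := MvPolynomial σ k)).map_eq_zero_of_eq v h hij }

/-- The coefficient of the pull-back of a top form to affine space. -/
noncomputable def omegaPsi0 (S : Subalgebra k (MvPolynomial σ k)) :
    topForms k S (Fintype.card σ) →ₗ[S] MvPolynomial σ k :=
  exteriorPower.alternatingMapLinearEquiv
    (((omegaDet S).compLinearMap (omegaGrad S)).domDomCongr (Fintype.equivFin σ))

theorem omegaPsi0_D (S : Subalgebra k (MvPolynomial σ k)) (a : Fin (Fintype.card σ) → S) :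
    omegaPsi0 S (exteriorPower.ιMulti S _ fun i => KaehlerDifferential.D k S (a i)) =
      jac fun i => (a (Fintype.equivFin σ i) : MvPolynomial σ k) := by
  rw [omegaPsi0, exteriorPower.alternatingMapLinearEquiv_apply_ιMulti]
  show Matrix.det (Matrix.of fun i m =>
    omegaGrad S (KaehlerDifferential.D k S (a (Fintype.equivFin σ i))) m) = _
  simp only [omegaGrad_D]
  rfl

theorem omegaPsi0_mem (S : Subalgebra k (MvPolynomial σ k))
    (hjac : ∀ a : σ → S, jac (fun i => (a i : MvPolynomial σ k)) ∈ S)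
    (η : topForms k S (Fintype.card σ)) : omegaPsi0 S η ∈ S := by
  have hη : η ∈ Submodule.span S (exteriorPower.ιMulti S (Fintype.card σ) ''
      {a | Set.range a ⊆ Set.range (KaehlerDifferential.D k S)}) := by
    rw [exteriorPower.ιMulti_span_of_span _ _ _ (KaehlerDifferential.span_range_derivation k S)]
    trivial
  induction hη using Submodule.span_induction with
  | mem x hx =>
    obtain ⟨a, ha, rfl⟩ := hx
    have hb : ∀ i, ∃ b, KaehlerDifferential.D k S b = a i := fun i => ha ⟨i, rfl⟩
    choose b hb using hb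
    rw [← funext hb, omegaPsi0_D]
    exact hjac _
  | zero => rw [map_zero]; exact S.zero_mem
  | add x y _ _ hx hy => rw [map_add]; exact S.add_mem hx hy
  | smul a x _ hx => rw [map_smul]; exact S.mul_mem a.2 hx

/-- The generator of the dual of the module of top forms. -/
noncomputable def omegaPsi (S : Subalgebra k (MvPolynomial σ k))
    (hjac : ∀ a : σ → S, jac (fun i => (a i : MvPolynomial σ k)) ∈ S) :
    Module.Dual S (topForms k S (Fintype.card σ)) where
  toFun η := ⟨omegaPsi0 S η, omegaPsi0_mem S hjac η⟩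
  map_add' x y := Subtype.ext (map_add _ x y)
  map_smul' a x := Subtype.ext (map_smul (omegaPsi0 S) a x)

theorem omegaPsi_D (S : Subalgebra k (MvPolynomial σ k))
    (hjac : ∀ a : σ → S, jac (fun i => (a i : MvPolynomial σ k)) ∈ S) (a : σ → S) :
    omegaPsi S hjac (exteriorPower.ιMulti S _ fun i =>
      KaehlerDifferential.D k S (a ((Fintype.equivFin σ).symm i))) =
      ⟨jac fun i => (a i : MvPolynomial σ k), hjac a⟩ := by
  apply Subtype.ext
  show omegaPsi0 S _ = _
  rw [omegaPsi0_D]
  simp only [Equiv.symm_apply_apply]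

theorem omegaPsi_range (S : Subalgebra k (MvPolynomial σ k))
    (hjac : ∀ a : σ → S, jac (fun i => (a i : MvPolynomial σ k)) ∈ S)
    {N : ℕ} (f : Fin N → S) (hf : Algebra.adjoin k (Set.range f) = ⊤) :
    LinearMap.range (omegaPsi S hjac) =
      Ideal.span (Set.range fun J : σ → Fin N =>
        (⟨jac fun i => (f (J i) : MvPolynomial σ k), hjac fun i => f (J i)⟩ : S)) := by
  apply le_antisymm
  · rw [LinearMap.range_eq_map,
      ← exteriorPower.ιMulti_span_of_span _ (Fintype.card σ) _ (omega_span_top f hf),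
      Submodule.map_span, Submodule.span_le]
    rintro _ ⟨_, ⟨a, ha, rfl⟩, rfl⟩
    have hb : ∀ i, ∃ j, KaehlerDifferential.D k S (f j) = a i := fun i => ha ⟨i, rfl⟩
    choose J hJ using hb
    refine Ideal.subset_span ⟨fun i => J (Fintype.equivFin σ i), ?_⟩
    apply Subtype.ext
    show _ = omegaPsi0 S _
    rw [← funext hJ, omegaPsi0_D]
  · rw [Ideal.span_le]
    rintro _ ⟨J, rfl⟩
    exact ⟨_, omegaPsi_D S hjac fun i => f (J i)⟩

/-- Every Jacobian of elements of `S` lies in the ideal of Jacobians of generators. -/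
theorem jac_mem_span (S : Subalgebra k (MvPolynomial σ k))
    (hjac : ∀ a : σ → S, jac (fun i => (a i : MvPolynomial σ k)) ∈ S)
    {N : ℕ} (f : Fin N → S) (hf : Algebra.adjoin k (Set.range f) = ⊤) (b : σ → S) :
    (⟨jac fun i => (b i : MvPolynomial σ k), hjac b⟩ : S) ∈
      Ideal.span (Set.range fun J : σ → Fin N =>
        (⟨jac fun i => (f (J i) : MvPolynomial σ k), hjac fun i => f (J i)⟩ : S)) := by
  rw [← omegaPsi_range S hjac f hf]
  exact ⟨_, omegaPsi_D S hjac b⟩

/-- The canonical module is free and the ideal `I` is the ideal of Jacobians. -/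
theorem omega_ident [Nonempty σ] (S : Subalgebra k (MvPolynomial σ k))
    (hjac : ∀ a : σ → S, jac (fun i => (a i : MvPolynomial σ k)) ∈ S)
    (hdiv : ∀ (r : MvPolynomial σ k) (a b : S), b ≠ 0 → r * b = a → r ∈ S)
    (M : S) (hM0 : M ≠ 0) (h : σ → S) (hM : M ∈ Algebra.adjoin k (Set.range h))
    (chart : ∀ p : S, ∃ a : ℕ, M ^ a * p ∈ Algebra.adjoin k (Set.range h))
    (hgcd : ∀ π : MvPolynomial σ k, Prime π →
      ∃ a : σ → S, ¬ π ∣ jac fun i => (a i : MvPolynomial σ k)) :
    Nonempty (canonicalModule k S (Fintype.card σ) ≃ₗ[S] S) ∧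
      ∀ (e : canonicalModule k S (Fintype.card σ) ≃ₗ[S] S) (N : ℕ) (f : Fin N → S),
        Algebra.adjoin k (Set.range f) = ⊤ →
        formIdeal e = Ideal.span (Set.range fun J : σ → Fin N =>
          (⟨jac fun i => (f (J i) : MvPolynomial σ k), hjac fun i => f (J i)⟩ : S)) := by
  set ψ := omegaPsi S hjac with hψdef
  have hr : Set.range (fun i => h ((Fintype.equivFin σ).symm i)) = Set.range h :=
    (Fintype.equivFin σ).symm.surjective.range_comp h
  have hrank := omega_rank
    (fun i => KaehlerDifferential.D k S (h ((Fintype.equivFin σ).symm i)))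
    (omega_torsion M hM0 (fun i => h ((Fintype.equivFin σ).symm i)) (by rw [hr]; exact hM)
      (by rw [hr]; exact chart))
  set η0 := exteriorPower.ιMulti S (Fintype.card σ)
    fun i => KaehlerDifferential.D k S (h ((Fintype.equivFin σ).symm i)) with hη0
  have hgcd' : ∀ π : MvPolynomial σ k, Prime π → ∃ η, ¬ π ∣ (ψ η : MvPolynomial σ k) := by
    intro π hπ
    obtain ⟨a, ha⟩ := hgcd π hπ
    refine ⟨exteriorPower.ιMulti S _ fun i =>
      KaehlerDifferential.D k S (a ((Fintype.equivFin σ).symm i)), ?_⟩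
    rw [hψdef, omegaPsi_D]
    exact ha
  have hx : ψ η0 ≠ 0 := by
    intro h0
    obtain ⟨η, hη⟩ := hgcd' (X (Classical.arbitrary σ)) X_prime
    obtain ⟨c, hc, s, hs⟩ := hrank η
    have h1 := hs ψ
    rw [h0, mul_zero] at h1
    rw [(mul_eq_zero.1 h1).resolve_left hc] at hη
    exact hη (dvd_zero _)
  have hcross : ∀ (φ : Module.Dual S (topForms k S (Fintype.card σ))) η,
      ψ η0 * φ η = φ η0 * ψ η := by
    intro φ η
    obtain ⟨c, hc, s, hs⟩ := hrank η
    apply mul_left_cancel₀ hc
    linear_combination ψ η0 * hs φ - φ η0 * hs ψ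
  have hgen : ∀ φ : Module.Dual S (topForms k S (Fintype.card σ)), ∃ c : S, φ = c • ψ := by
    intro φ
    have hx' : (ψ η0 : MvPolynomial σ k) ≠ 0 := fun h0 => hx (Subtype.ext h0)
    obtain ⟨y, x, c, hrel, hy, hxc⟩ :=
      UniqueFactorizationMonoid.exists_reduced_factors' (φ η0 : MvPolynomial σ k) _ hx'
    have hc0 : c ≠ 0 := by
      rintro rfl
      exact hx' (by rw [← hxc, zero_mul])
    have hx0 : x ≠ 0 := by
      rintro rfl
      exact hx' (by rw [← hxc, mul_zero])
    have hdvd : ∀ η, x ∣ (ψ η : MvPolynomial σ k) := by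
      intro η
      have h1 : (ψ η0 : MvPolynomial σ k) * φ η = φ η0 * ψ η := by
        exact_mod_cast congrArg Subtype.val (hcross φ η)
      rw [← hy, ← hxc, mul_assoc, mul_assoc] at h1
      exact hrel.symm.dvd_of_dvd_mul_left ⟨_, (mul_left_cancel₀ hc0 h1).symm⟩
    have hunit : IsUnit x := by
      by_contra hnu
      obtain ⟨π, hπ, hπx⟩ := WfDvdMonoid.exists_irreducible_factor hnu hx0
      obtain ⟨η, hη⟩ := hgcd' π hπ.prime
      exact hη (hπx.trans (hdvd η))
    obtain ⟨x', hx'⟩ := hunit.exists_right_inv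
    have hrx : y * x' * (ψ η0 : MvPolynomial σ k) = φ η0 := by
      rw [← hy, ← hxc]
      linear_combination y * c * hx'
    refine ⟨⟨y * x', hdiv _ _ _ hx hrx⟩, LinearMap.ext fun η => ?_⟩
    have hrx' : (⟨y * x', hdiv _ _ _ hx hrx⟩ : S) * ψ η0 = φ η0 := Subtype.ext hrx
    apply mul_left_cancel₀ hx
    rw [hcross, LinearMap.smul_apply, smul_eq_mul]
    linear_combination (-ψ η) * hrx'
  obtain ⟨h1, h2⟩ := omega_dual ψ (fun h0 => hx (by rw [h0]; rfl)) hgen
  exact ⟨h1, fun e N f hf => (h2 e).trans (omegaPsi_range S hjac f hf)⟩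

end Pool.Agent.MP_536a45_ag
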