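import Mathlib

/-!
# The quotient `X = 𝔸^σ / G`, its canonical module, the ideal `I`, arcs and jets
-/

open MvPolynomial

namespace Pool.Agent.MP_536a45_ag

/-- The substitution `p(x) ↦ p(g x)` on polynomials, for a matrix `g`. -/
noncomputable def linSubst {k : Type} [Field k] {σ : Type} [Fintype σ] (g : Matrix σ σ k) :
    MvPolynomial σ k →ₐ[k] MvPolynomial σ k :=
  aeval fun i => ∑ j, g i j • X j

/-- The ring of invariants `k[x]^G`, the coordinate ring of `X = 𝔸^σ / G`. -/
noncomputable def invariants {k : Type} [Field k] {σ : Type} [Fintype σ] [DecidableEq σ]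
    (G : Subgroup (GL σ k)) : Subalgebra k (MvPolynomial σ k) :=
  ⨅ g ∈ G, AlgHom.equalizer (linSubst (g : Matrix σ σ k)) (AlgHom.id k _)

/-- No element of `G` has a fixed locus of codimension one: the codimension of the fixed locus
`ker (g - 1)` is the rank of `g - 1`. -/
def NoPseudoReflection {k : Type} [Field k] {σ : Type} [Fintype σ] [DecidableEq σ]
    (G : Subgroup (GL σ k)) : Prop :=
  ∀ g ∈ G, ((g : Matrix σ σ k) - 1).rank ≠ 1

/-- Given a trivialization `e : M^{∨∨} ≃ S`, the ideal `I` with `Im (M → M^{∨∨}) = I M^{∨∨}`. -/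
noncomputable def evalIdeal {S M : Type} [CommRing S] [AddCommGroup M] [Module S M]
    (e : Module.Dual S (Module.Dual S M) ≃ₗ[S] S) : Ideal S :=
  LinearMap.range (e.toLinearMap ∘ₗ Module.Dual.eval S M)

/-- The order `ord_γ I` of an ideal along an arc `γ : Spec k⟦t⟧ → Spec S`. -/
noncomputable def arcOrd {k S : Type} [Field k] [CommRing S] [Algebra k S] (I : Ideal S)
    (γ : S →ₐ[k] PowerSeries k) : ℕ∞ :=
  ⨅ a ∈ I, (γ a).order

/-- The truncation `π_n γ ∈ J_n X ⊆ 𝔸^{N (n+1)}` of an arc, for the embedding `X ⊆ 𝔸^N` given by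
generators `f`. -/
noncomputable def jet {k S : Type} [Field k] [CommRing S] [Algebra k S] {N : ℕ} (f : Fin N → S)
    (n : ℕ) (γ : S →ₐ[k] PowerSeries k) : Fin N × Fin (n + 1) → k :=
  fun p => PowerSeries.coeff (p.2 : ℕ) (γ (f p.1))

/-- The set `π_n {γ ∈ J_∞ X | ord_γ I = s}`. -/
def jetSet {k S : Type} [Field k] [CommRing S] [Algebra k S] {N : ℕ} (f : Fin N → S)
    (I : Ideal S) (s n : ℕ) : Set (Fin N × Fin (n + 1) → k) :=
  jet f n '' {γ : S →ₐ[k] PowerSeries k | arcOrd I γ = s}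

end Pool.Agent.MP_536a45_ag
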