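import Pool.Agent.MP_536a45_ag.K0
import Pool.Agent.MP_536a45_ag.Quot

/-!
# Proof-side definitions: Frobenius counts, the group, Jacobians
-/

open MvPolynomial Filter

namespace Pool.Agent.MP_536a45_ag

/-- The module `Ω^d_X` of Kähler `d`-forms of `X = Spec S` over `k`. -/
abbrev topForms (k S : Type) [Field k] [CommRing S] [Algebra k S] (d : ℕ) : Type :=
  ⋀[S]^d (KaehlerDifferential k S)

/-- The canonical module `ω_X = (Ω^d_X)^{∨∨}` of a normal `d`-dimensional `X = Spec S`. -/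
abbrev canonicalModule (k S : Type) [Field k] [CommRing S] [Algebra k S] (d : ℕ) : Type :=
  Module.Dual S (Module.Dual S (topForms k S d))

/-- Given a trivialization `e : ω_X ≃ 𝒪_X`, the ideal `I` with `Im (Ω^d_X → ω_X) = I ω_X`. -/
noncomputable def formIdeal {k S : Type} [Field k] [CommRing S] [Algebra k S] {d : ℕ}
    (e : canonicalModule k S d ≃ₗ[S] S) : Ideal S :=
  LinearMap.range (e.toLinearMap ∘ₗ Module.Dual.eval S (topForms k S d))

/-- The ground field of the example. -/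
abbrev kk : Type := AlgebraicClosure (ZMod 2)

/-- Coordinatewise `2 ^ m`-power Frobenius. -/
noncomputable def frob (m : ℕ) {ι : Type} (x : ι → kk) : ι → kk := fun i => x i ^ 2 ^ m

/-- The number of `𝔽_{2^m}`-points of `A`. -/
noncomputable def cnt (m : ℕ) {ι : Type} (A : Set (ι → kk)) : ℕ :=
  {x | x ∈ A ∧ frob m x = x}.ncard

/-- The filter of sufficiently divisible positive integers. -/
def dv : Filter ℕ := ⨅ a : ℕ+, 𝓟 {m | 0 < m ∧ (a : ℕ) ∣ m}

theorem eventually_dv {P : ℕ → Prop} :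
    (∀ᶠ m in dv, P m) ↔ ∃ a : ℕ, 0 < a ∧ ∀ m, 0 < m → a ∣ m → P m := by
  have hdir : Directed (· ≥ ·) fun a : ℕ+ => 𝓟 {m : ℕ | 0 < m ∧ (a : ℕ) ∣ m} := by
    intro a b
    refine ⟨a * b, ?_, ?_⟩
    · simp only [ge_iff_le, principal_mono]
      rintro m ⟨h1, h2⟩
      exact ⟨h1, (Dvd.intro _ rfl : (a : ℕ) ∣ a * b).trans (by simpa using h2)⟩
    · simp only [ge_iff_le, principal_mono]
      rintro m ⟨h1, h2⟩
      exact ⟨h1, (Dvd.intro_left _ rfl : (b : ℕ) ∣ a * b).trans (by simpa using h2)⟩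
  unfold dv
  rw [Filter.Eventually, mem_iInf_of_directed hdir]
  constructor
  · rintro ⟨a, ha⟩
    exact ⟨a, a.pos, fun m h1 h2 => ha ⟨h1, h2⟩⟩
  · rintro ⟨a, h0, ha⟩
    exact ⟨⟨a, h0⟩, fun m hm => ha m hm.1 hm.2⟩

instance : dv.NeBot := by
  refine ⟨fun h => ?_⟩
  have : ∀ᶠ m in dv, False := by rw [h]; exact eventually_bot
  obtain ⟨a, h0, ha⟩ := eventually_dv.1 this
  exact ha a h0 dvd_rfl

/-- The polynomial map with coordinates `F j`. -/
noncomputable def polyMap {k : Type} [Field k] {ι κ : Type} (F : κ → MvPolynomial ι k)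
    (x : ι → k) : κ → k := fun j => eval x (F j)

/-- The Jacobian determinant. -/
noncomputable def jac {k : Type} [Field k] {σ : Type} [Fintype σ] [DecidableEq σ]
    (a : σ → MvPolynomial σ k) : MvPolynomial σ k :=
  (Matrix.of fun i m => pderiv m (a i)).det

/-- `A(c) w = ∑_l c_l A_l w`. -/
def Aop {k : Type} [Field k] {u : ℕ} (A : Fin 3 → Matrix (Fin u) (Fin u) k) {Ω : Type}
    [CommRing Ω] [Algebra k Ω] (c : Fin 3 → Ω) (w : Fin u → Ω) : Fin u → Ω :=
  fun i => ∑ l, ∑ j, A l i j • (c l * w j)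

/-- The point `(w, y + A(θ) w)`. -/
def pt {k : Type} [Field k] {u : ℕ} (A : Fin 3 → Matrix (Fin u) (Fin u) k) {Ω : Type}
    [CommRing Ω] [Algebra k Ω] (θ : Fin 3 → Ω) (w y : Fin u → Ω) : Fin u ⊕ Fin u → Ω :=
  Sum.elim w (y + Aop A θ w)

/-- The vectors with entries in `𝔽_2`. -/
def bits (k : Type) [Field k] : Set (Fin 3 → k) := {c | ∀ l, c l ^ 2 = c l}

/-- The condition on the pencil: `A(c) w = 0 = A(c²) w` with `c ≠ 0` forces `w = 0`. -/
def H1 {k : Type} [Field k] {u : ℕ} (A : Fin 3 → Matrix (Fin u) (Fin u) k) : Prop :=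
  ∀ (c : Fin 3 → k) (w : Fin u → k), c ≠ 0 → Aop A c w = 0 → Aop A (fun l => c l ^ 2) w = 0 →
    w = 0

/-- The matrix of `(w, y) ↦ (w, y + A(c) w)`. -/
def gmat {k : Type} [Field k] {u : ℕ} (A : Fin 3 → Matrix (Fin u) (Fin u) k) (c : Fin 3 → k) :
    Matrix (Fin u ⊕ Fin u) (Fin u ⊕ Fin u) k :=
  Matrix.fromBlocks 1 0 (∑ l, c l • A l) 1

theorem gmat_mul {k : Type} [Field k] {u : ℕ} (A : Fin 3 → Matrix (Fin u) (Fin u) k)
    (c c' : Fin 3 → k) : gmat A c * gmat A c' = gmat A (c + c') := by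
  simp [gmat, Matrix.fromBlocks_multiply, add_smul, Finset.sum_add_distrib]

theorem gmat_zero {k : Type} [Field k] {u : ℕ} (A : Fin 3 → Matrix (Fin u) (Fin u) k) :
    gmat A 0 = 1 := by
  simp [gmat]

theorem add_mem_bits {k : Type} [Field k] [CharP k 2] {c c' : Fin 3 → k} (h : c ∈ bits k)
    (h' : c' ∈ bits k) : c + c' ∈ bits k := fun l => by
  rw [Pi.add_apply, CharTwo.add_sq, h l, h' l]

theorem zero_mem_bits {k : Type} [Field k] : (0 : Fin 3 → k) ∈ bits k := fun l => by simp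

/-- The group `G ≅ (ℤ/2)³` of the maps `(w, y) ↦ (w, y + A(c) w)`, `c ∈ 𝔽_2³`. -/
def Grp {k : Type} [Field k] [CharP k 2] {u : ℕ} (A : Fin 3 → Matrix (Fin u) (Fin u) k) :
    Subgroup (GL (Fin u ⊕ Fin u) k) where
  carrier := {g | ∃ c ∈ bits k, (g : Matrix (Fin u ⊕ Fin u) (Fin u ⊕ Fin u) k) = gmat A c}
  mul_mem' := by
    rintro g g' ⟨c, hc, e⟩ ⟨c', hc', e'⟩
    exact ⟨c + c', add_mem_bits hc hc', by rw [Units.val_mul, e, e', gmat_mul]⟩
  one_mem' := ⟨0, zero_mem_bits, by rw [gmat_zero, Units.val_one]⟩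
  inv_mem' := by
    rintro g ⟨c, hc, e⟩
    refine ⟨c, hc, ?_⟩
    have h : (g : Matrix (Fin u ⊕ Fin u) (Fin u ⊕ Fin u) k) * gmat A c = 1 := by
      rw [e, gmat_mul, show c + c = 0 from funext fun l => CharTwo.add_self_eq_zero _, gmat_zero]
    exact (Units.inv_eq_of_mul_eq_one_right h)

/-- The ring of invariants of the example. -/
noncomputable abbrev Inv {k : Type} [Field k] [CharP k 2] {u : ℕ}
    (A : Fin 3 → Matrix (Fin u) (Fin u) k) : Subalgebra k (MvPolynomial (Fin u ⊕ Fin u) k) :=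
  invariants (Grp A)

/-- The number of `𝔽_{2^m}`-points `(β, ω)` with `ω ≠ 0` and `A(β) ω = 0`. -/
noncomputable def Zc {u : ℕ} (A : Fin 3 → Matrix (Fin u) (Fin u) kk) (m : ℕ) : ℕ :=
  {p : (Fin 3 → kk) × (Fin u → kk) |
    frob m p.1 = p.1 ∧ frob m p.2 = p.2 ∧ p.2 ≠ 0 ∧ Aop A p.1 p.2 = 0}.ncard

/-- The Vandermonde linear form `ℓ_a (v) = ∑_i a^i v_i`. -/
def vand {k : Type} [Field k] {u : ℕ} (a : k) {Ω : Type} [CommRing Ω] [Algebra k Ω]
    (v : Fin u → Ω) : Ω := ∑ i : Fin u, a ^ (i : ℕ) • v i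

end Pool.Agent.MP_536a45_ag
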