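import Pool.Agent.MP_536a45_ag.Basis
import Pool.Agent.MP_536a45_ag.Quot

/-!
# The completed ring, the stringy motive, rational functions in `𝕃^{1/ρ}`
-/

open Filter Topology

namespace Pool.Agent.MP_536a45_ag

/-- The dimension filtration is a basis of neighbourhoods of `0` for a ring topology. -/
theorem filt_isBasis (k : Type) [Field k] (ρ : ℕ) : RingSubgroupsBasis (filt k ρ) :=
  filt_basis k ρ

/-- The topology on `𝓜` in which the subgroups `filt k ρ m` form a basis of neighbourhoods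
of `0`. -/
noncomputable instance (k : Type) [Field k] (ρ : ℕ) : TopologicalSpace (Mot k ρ) :=
  (filt_isBasis k ρ).topology

instance (k : Type) [Field k] (ρ : ℕ) : IsTopologicalRing (Mot k ρ) :=
  (filt_isBasis k ρ).toRingFilterBasis.isTopologicalRing

noncomputable instance (k : Type) [Field k] (ρ : ℕ) : UniformSpace (Mot k ρ) :=
  IsTopologicalAddGroup.rightUniformSpace (Mot k ρ)

instance (k : Type) [Field k] (ρ : ℕ) : IsUniformAddGroup (Mot k ρ) :=
  isUniformAddGroup_of_addCommGroup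

/-- The completed Grothendieck ring `𝓜^`. -/
abbrev MotHat (k : Type) [Field k] (ρ : ℕ) : Type 1 := UniformSpace.Completion (Mot k ρ)

/-- `M` is the motivic integral `∫_{J_∞ X} 𝕃^{ord I} dμ_X` over the `d`-dimensional
`X = Spec S ⊆ 𝔸^N`: each `A_s = {ord I = s}` is stable, of measure
`μ_s = {π_n A_s} 𝕃^{-n d}` for `n ≫ 0`, and `∑_s μ_s 𝕃^s` converges to `M` in `𝓜^`. -/
def IsMotivicIntegral {k S : Type} [Field k] [CommRing S] [Algebra k S] {N : ℕ} (f : Fin N → S)
    (d : ℕ) (I : Ideal S) (ρ : ℕ) (M : MotHat k ρ) : Prop :=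
  ∃ μ : ℕ → Mot k ρ,
    (∀ s, ∀ᶠ n in atTop, IsConstr (jetSet (k := k) f I s n) ∧
      μ s * lef k ρ ^ (n * d) = toMot k ρ (cls (jetSet (k := k) f I s n))) ∧
    Tendsto (fun m => ((∑ s ∈ Finset.range m, μ s * lef k ρ ^ s : Mot k ρ) : MotHat k ρ))
      atTop (𝓝 M)

/-- `M = P(T) Q(T)⁻¹` for integer polynomials `P`, `Q` with `Q(T)` invertible. -/
def IsRationalFunction {R : Type 1} [CommRing R] (T M : R) : Prop :=
  ∃ P Q : Polynomial ℤ, IsUnit (Polynomial.aeval T Q) ∧
    M * Polynomial.aeval T Q = Polynomial.aeval T P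

/-- The element `𝕃^{1/ρ}` of `𝓜^`. -/
noncomputable def rootHat (k : Type) [Field k] (ρ : ℕ) : MotHat k ρ :=
  ((rootL k ρ : (Mot k ρ)ˣ) : Mot k ρ)

/-- The `d`-dimensional `X = Spec S` is of finite type, its canonical module
`ω_X = (Ω^d_X)^{∨∨}` is free (so `r = 1`), and for every `ρ ≥ 1` the stringy motive
`M_st(X) = ∫ 𝕃^{ord I} dμ_X` converges in `𝓜^` but is not a rational function in `𝕃^{1/ρ}`. -/
structure IrrationalStringyMotive (k S : Type) [Field k] [CommRing S] [Algebra k S] (d : ℕ) :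
    Prop where
  /-- `S` is finitely generated -/
  fg : ∃ (N : ℕ) (f : Fin N → S), Algebra.adjoin k (Set.range f) = ⊤
  /-- `ω_X` is free of rank one -/
  gorenstein : Nonempty
    (Module.Dual S (Module.Dual S (⋀[S]^d (KaehlerDifferential k S))) ≃ₗ[S] S)
  /-- the stringy motive converges and is irrational -/
  irrational : ∀ (N : ℕ) (f : Fin N → S), Algebra.adjoin k (Set.range f) = ⊤ →
    ∀ e : Module.Dual S (Module.Dual S (⋀[S]^d (KaehlerDifferential k S))) ≃ₗ[S] S,
      ∀ ρ : ℕ, 0 < ρ → ∃ M : MotHat k ρ,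
        IsMotivicIntegral f d (evalIdeal e) ρ M ∧ ¬ IsRationalFunction (rootHat k ρ) M

end Pool.Agent.MP_536a45_ag
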